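import Mathlib.Algebra.Group.Pointwise.Finset.Basic
import Mathlib.GroupTheory.OrderOfElement
import Mathlib.GroupTheory.QuotientGroup.Basic
import Mathlib.Algebra.Order.BigOperators.Ring.Finset
import Mathlib.Data.Real.Basic
import Mathlib.Tactic

/-!
# Sums of dilates: counting multipliers
-/

set_option autoImplicit false

namespace Pool.Agent.TH414.Dil

open Finset
open scoped Pointwise Classical

/-- at most `N / Q` multipliers send `u` to `v` -/
theorem mult_count {G : Type*} [AddCommGroup G] (u v : G) (N Q : ℕ) (hQN : Q ≤ N)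
    (hu : addOrderOf u = 0 ∨ (Q ≤ addOrderOf u ∧ addOrderOf u ∣ N)) :
    Q * ((range N).filter (fun n => n • u = v)).card ≤ N := by
  rcases hu with hu | ⟨hQ, hdvd⟩
  · have h1 : ((range N).filter (fun n => n • u = v)).card ≤ 1 := by
      rw [Finset.card_le_one]
      intro a ha b hb
      simp only [mem_filter] at ha hb
      have hinj := injective_nsmul_iff_not_isOfFinAddOrder.2 (addOrderOf_eq_zero_iff.1 hu)
      exact hinj (by simp only [ha.2, hb.2])
    calc Q * _ ≤ Q * 1 := Nat.mul_le_mul_left _ h1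
      _ ≤ N := by omega
  · rcases Nat.eq_zero_or_pos (addOrderOf u) with h0 | hpos
    · have : Q = 0 := by omega
      simp [this]
    obtain ⟨k, hk⟩ := hdvd
    have h1 : ((range N).filter (fun n => n • u = v)).card ≤ (range k).card := by
      refine Finset.card_le_card_of_injOn (fun n => n / addOrderOf u) ?_ ?_
      · intro n hn
        simp only [coe_filter, mem_range, Set.mem_setOf_eq] at hn
        simp only [coe_range, Set.mem_Iio]
        exact Nat.div_lt_of_lt_mul (by rw [← hk]; exact hn.1)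
      · intro a ha b hb hab
        simp only [coe_filter, mem_range, Set.mem_setOf_eq] at ha hb
        simp only at hab
        have hmod : a ≡ b [MOD addOrderOf u] := nsmul_eq_nsmul_iff_modEq.1 (ha.2.trans hb.2.symm)
        have e1 := Nat.div_add_mod a (addOrderOf u)
        have e2 := Nat.div_add_mod b (addOrderOf u)
        have e3 : a % addOrderOf u = b % addOrderOf u := hmod
        rw [← e1, ← e2, hab, e3]
    calc Q * _ ≤ addOrderOf u * k := Nat.mul_le_mul hQ (by simpa using h1)
      _ = N := hk.symm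

/-- no small torsion -/
def NST (Q : ℕ) (G : Type*) [AddCommGroup G] : Prop :=
  ∀ u : G, u ≠ 0 → addOrderOf u = 0 ∨ Q ≤ addOrderOf u

/-- a common multiple of all finite orders in a finite set -/
theorem exists_N {G : Type*} [AddCommGroup G] (Q M : ℕ) (hM : 0 < M) (S : Finset G)
    (hG : ∀ u ∈ S, u ≠ 0 → addOrderOf u = 0 ∨ Q ≤ addOrderOf u) :
    ∃ N : ℕ, 0 < N ∧ M ∣ N ∧ Q ≤ N ∧
      ∀ u ∈ S, u ≠ 0 → addOrderOf u = 0 ∨ (Q ≤ addOrderOf u ∧ addOrderOf u ∣ N) := by
  refine ⟨M * (Q + 1) * ∏ u ∈ S, (if addOrderOf u = 0 then 1 else addOrderOf u), ?_, ?_, ?_, ?_⟩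
  · refine Nat.mul_pos (Nat.mul_pos hM (Nat.succ_pos _)) (Finset.prod_pos fun u _ => ?_)
    split_ifs with h
    · exact one_pos
    · exact Nat.pos_of_ne_zero h
  · exact Dvd.intro _ (by rw [mul_assoc])
  · have h1 : 1 ≤ ∏ u ∈ S, (if addOrderOf u = 0 then 1 else addOrderOf u) :=
      Nat.one_le_iff_ne_zero.2 (Finset.prod_ne_zero_iff.2 fun u _ => by
        split_ifs with h
        · exact one_ne_zero
        · exact h)
    calc Q ≤ 1 * (Q + 1) * 1 := by omega
      _ ≤ _ := Nat.mul_le_mul (Nat.mul_le_mul_right _ hM) h1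
  · intro u hu hu0
    rcases hG u hu hu0 with h | h
    · exact Or.inl h
    · by_cases h0 : addOrderOf u = 0
      · exact Or.inl h0
      · refine Or.inr ⟨h, Dvd.dvd.mul_left ?_ _⟩
        have := Finset.dvd_prod_of_mem (fun u => if addOrderOf u = 0 then 1 else addOrderOf u) hu
        simpa [h0] using this

/-- the quotient by a finite subgroup has no new small torsion -/
theorem NST_quotient {Γ : Type*} [AddCommGroup Γ] (Q : ℕ)
    (hΓ : ∀ p : ℕ, p.Prime → p < Q → ∀ x : Γ, p • x = 0 → x = 0)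
    (U : AddSubgroup Γ) [Finite U] : NST Q (Γ ⧸ U) := by
  intro u hu
  by_contra hcon
  push_neg at hcon
  obtain ⟨h0, hlt⟩ := hcon
  have h1 : addOrderOf u ≠ 1 := fun h => hu (AddMonoid.addOrderOf_eq_one_iff.1 h)
  obtain ⟨p, hp, hpd⟩ := Nat.exists_prime_and_dvd h1
  have hpQ : p < Q := lt_of_le_of_lt (Nat.le_of_dvd (Nat.pos_of_ne_zero h0) hpd) hlt
  set w := (addOrderOf u / p) • u with hw
  have hpw : p • w = 0 := by
    rw [hw, smul_smul, Nat.mul_div_cancel' hpd]
    exact addOrderOf_nsmul_eq_zero u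
  have hw0 : w ≠ 0 := by
    intro h
    have := addOrderOf_dvd_of_nsmul_eq_zero (hw ▸ h)
    have h2 : addOrderOf u / p < addOrderOf u :=
      Nat.div_lt_self (Nat.pos_of_ne_zero h0) hp.one_lt
    have h3 : 0 < addOrderOf u / p :=
      Nat.div_pos (Nat.le_of_dvd (Nat.pos_of_ne_zero h0) hpd) hp.pos
    exact absurd (Nat.le_of_dvd h3 this) (by omega)
  obtain ⟨x, hx⟩ := QuotientAddGroup.mk_surjective w
  have hpx : p • x ∈ U := by
    rw [← QuotientAddGroup.eq_zero_iff, QuotientAddGroup.mk_nsmul, hx, hpw]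
  -- multiplication by p is injective hence surjective on U
  have hinj : Function.Injective (fun y : U => p • y) := by
    intro y z hyz
    simp only at hyz
    have h4 : p • (y - z) = 0 := by rw [nsmul_sub, hyz, sub_self]
    have h5 : p • ((y - z : U) : Γ) = 0 := by
      rw [← AddSubgroup.coe_nsmul, h4]; rfl
    have h6 := hΓ p hp hpQ _ h5
    have h7 : (y - z : U) = 0 := Subtype.ext h6
    exact sub_eq_zero.1 h7
  obtain ⟨y, hy⟩ := Finite.surjective_of_injective hinj ⟨p • x, hpx⟩
  have hy' : p • (y : Γ) = p • x := congrArg Subtype.val hy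
  have h8 : p • (x - y) = 0 := by rw [nsmul_sub, hy', sub_self]
  have h9 := hΓ p hp hpQ _ h8
  apply hw0
  rw [← hx, QuotientAddGroup.eq_zero_iff]
  have : x = y := sub_eq_zero.1 h9
  rw [this]
  exact y.2

end Pool.Agent.TH414.Dil
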