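import Pool.Agent.TH414.Dil.Rigid
import Mathlib.Analysis.Fourier.FiniteAbelian.PontryaginDuality
import Mathlib.Algebra.Order.Chebyshev

/-!
# Sums of dilates: the energy step
-/

set_option autoImplicit false

namespace Pool.Agent.TH414.Dil

open Finset
open scoped Pointwise Classical ComplexConjugate

/-- Cauchy-Schwarz for the number of coincidences of a map -/
theorem coincidences {X Y : Type*} (S : Finset X) (T : Finset Y) (f : X → Y)
    (hf : ∀ x ∈ S, f x ∈ T) :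
    S.card ^ 2 ≤ T.card * ((S ×ˢ S).filter (fun p => f p.1 = f p.2)).card := by
  have h1 : S.card = ∑ y ∈ T, (S.filter (fun x => f x = y)).card :=
    Finset.card_eq_sum_card_fiberwise hf
  have h2 : ((S ×ˢ S).filter (fun p => f p.1 = f p.2)).card =
      ∑ y ∈ T, (S.filter (fun x => f x = y)).card ^ 2 := by
    rw [Finset.card_eq_sum_card_fiberwise (f := fun p : X × X => f p.1) (t := T)]
    · refine Finset.sum_congr rfl fun y _ => ?_
      rw [sq, ← Finset.card_product]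
      congr 1
      ext p
      simp only [mem_filter, mem_product]
      constructor
      · rintro ⟨⟨⟨h1, h2⟩, h3⟩, h4⟩
        exact ⟨⟨h1, h4⟩, h2, h3 ▸ h4⟩
      · rintro ⟨⟨h1, h2⟩, h3, h4⟩
        exact ⟨⟨⟨h1, h3⟩, h2.trans h4.symm⟩, h2⟩
    · intro p hp
      simp only [coe_filter, mem_product, Set.mem_ofPred_eq] at hp
      exact hf _ hp.1.1
  rw [h1, h2]
  exact_mod_cast sq_sum_le_card_mul_sum_sq (s := T) (f := fun y => (S.filter (fun x => f x = y)).card)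

variable {Γ : Type*} [AddCommGroup Γ]

/-- pairs of `A` in the same coset of `V` -/
noncomputable def rr (V : AddSubgroup Γ) (A : Finset Γ) : Finset (Γ × Γ) :=
  (A ×ˢ A).filter (fun p => p.1 - p.2 ∈ V)

theorem rr_card_le (V : AddSubgroup Γ) (A : Finset Γ) : (rr V A).card ≤ A.card ^ 2 := by
  rw [sq, ← Finset.card_product]
  exact Finset.card_filter_le _ _

/-- the number of additive quadruples inside cosets of `U` -/
noncomputable def NU (U : AddSubgroup Γ) (A : Finset Γ) (n : ℕ) : ℕ :=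
  ((rr U A ×ˢ rr U A).filter (fun t => (t.1.1 - t.1.2) + n • (t.2.1 - t.2.2) = 0)).card

theorem NU_good (U : AddSubgroup Γ) (A : Finset Γ) (n : ℕ) (h : Good U A n) :
    A.card ^ 4 ≤ (A + nd n A).card * NU U A n := by
  have h1 := coincidences (A ×ˢ A) (A + nd n A) (fun p => p.1 + n • p.2) (by
    rintro ⟨a, b⟩ hp
    rw [mem_product] at hp
    exact Finset.add_mem_add hp.1 (Finset.mem_image_of_mem _ hp.2))
  rw [card_product] at h1
  calc A.card ^ 4 = (A.card * A.card) ^ 2 := by ring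
    _ ≤ _ := h1
    _ ≤ _ := by
      refine Nat.mul_le_mul_left _ ?_
      refine Finset.card_le_card_of_injOn
        (fun p => ((p.1.1, p.2.1), (p.1.2, p.2.2))) ?_ ?_
      · rintro ⟨⟨a, b⟩, ⟨c, d⟩⟩ hp
        simp only [coe_filter, mem_product, Set.mem_ofPred_eq] at hp
        obtain ⟨⟨⟨ha, hb⟩, hc, hd⟩, he⟩ := hp
        have h2 : (a : Γ ⧸ U) + n • (b : Γ ⧸ U) = (c : Γ ⧸ U) + n • (d : Γ ⧸ U) := by
          rw [← QuotientAddGroup.mk_nsmul, ← QuotientAddGroup.mk_nsmul,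
            ← QuotientAddGroup.mk_add, ← QuotientAddGroup.mk_add, he]
        obtain ⟨h3, h4⟩ := h _ (mem_bar ha) _ (mem_bar hb) _ (mem_bar hc) _ (mem_bar hd) h2
        have h5 : a - c ∈ U := by
          rw [← QuotientAddGroup.eq_zero_iff, QuotientAddGroup.mk_sub, h3, sub_self]
        have h6 : b - d ∈ U := by
          rw [← QuotientAddGroup.eq_zero_iff, QuotientAddGroup.mk_sub, h4, sub_self]
        simp only [coe_filter, mem_product, Set.mem_ofPred_eq, rr, mem_filter]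
        refine ⟨⟨⟨⟨ha, hc⟩, h5⟩, ⟨hb, hd⟩, h6⟩, ?_⟩
        rw [nsmul_sub]
        have h7 : a + n • b - (c + n • d) = 0 := sub_eq_zero.2 he
        rw [← h7]; abel
      · rintro ⟨⟨a, b⟩, ⟨c, d⟩⟩ _ ⟨⟨a', b'⟩, ⟨c', d'⟩⟩ _ heq
        simp only [Prod.mk.injEq] at heq ⊢
        exact ⟨⟨heq.1.1, heq.2.1⟩, heq.1.2, heq.2.2⟩

/-! ### characters of the finite group `U` -/

section chars

variable (U : AddSubgroup Γ)

/-- extension by zero of a character of `U` -/
noncomputable def cext (χ : AddChar U ℂ) (x : Γ) : ℂ := if h : x ∈ U then χ ⟨x, h⟩ else 0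

variable {U}

theorem cext_mem (χ : AddChar U ℂ) {x : Γ} (h : x ∈ U) : cext U χ x = χ ⟨x, h⟩ := dif_pos h

/-- the kernel of a character of `U`, as a subgroup of `Γ` -/
def cker (χ : AddChar U ℂ) : AddSubgroup Γ where
  carrier := {x | ∃ h : x ∈ U, χ ⟨x, h⟩ = 1}
  zero_mem' := ⟨U.zero_mem, χ.map_zero_eq_one⟩
  add_mem' := by
    rintro x y ⟨hx, hx'⟩ ⟨hy, hy'⟩
    refine ⟨U.add_mem hx hy, ?_⟩
    have : (⟨x + y, U.add_mem hx hy⟩ : U) = ⟨x, hx⟩ + ⟨y, hy⟩ := rfl
    rw [this, χ.map_add_eq_mul, hx', hy', one_mul]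
  neg_mem' := by
    rintro x ⟨hx, hx'⟩
    refine ⟨U.neg_mem hx, ?_⟩
    have : (⟨-x, U.neg_mem hx⟩ : U) = -⟨x, hx⟩ := rfl
    rw [this, AddChar.map_neg_eq_inv, hx', inv_one]

theorem cker_le (χ : AddChar U ℂ) : cker χ ≤ U := fun _ h => h.1

theorem cker_ne (χ : AddChar U ℂ) (hχ : χ ≠ 0) : cker χ ≠ U := by
  intro h
  apply hχ
  ext x
  have : (x : Γ) ∈ cker χ := by rw [h]; exact x.2
  obtain ⟨h1, h2⟩ := this
  simpa using h2

/-- the transform of the difference representation function -/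
noncomputable def rhat (A : Finset Γ) (χ : AddChar U ℂ) : ℂ := ∑ p ∈ rr U A, cext U χ (p.1 - p.2)

variable [Finite U]

theorem rhat_nonneg (A : Finset Γ) (χ : AddChar U ℂ) :
    ∃ R : ℝ, 0 ≤ R ∧ rhat A χ = R := by
  have hs : ∀ y : Γ ⧸ U, ((Quotient.out y : Γ) : Γ ⧸ U) = y := fun y => Quotient.out_eq' y
  have hmem : ∀ a : Γ, a - Quotient.out (a : Γ ⧸ U) ∈ U := by
    intro a
    rw [← QuotientAddGroup.eq_zero_iff, QuotientAddGroup.mk_sub, hs, sub_self]
  let g : Γ → ℂ := fun a => χ ⟨a - Quotient.out (a : Γ ⧸ U), hmem a⟩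
  refine ⟨∑ y ∈ bar U A, Complex.normSq
      (∑ a ∈ A.filter (fun a => (QuotientAddGroup.mk a : Γ ⧸ U) = y), g a),
    Finset.sum_nonneg fun y _ => Complex.normSq_nonneg _, ?_⟩
  have h1 : rhat A χ = ∑ p ∈ rr U A, g p.1 * conj (g p.2) := by
    refine Finset.sum_congr rfl fun p hp => ?_
    simp only [rr, mem_filter] at hp
    rw [cext_mem χ hp.2]
    simp only [g]
    rw [← AddChar.map_neg_eq_conj, ← AddChar.map_add_eq_mul]
    congr 1
    apply Subtype.ext
    have h2 : (p.1 : Γ ⧸ U) = (p.2 : Γ ⧸ U) := by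
      rw [← sub_eq_zero, ← QuotientAddGroup.mk_sub]
      exact (QuotientAddGroup.eq_zero_iff _).2 hp.2
    simp only [AddSubgroup.coe_add, NegMemClass.coe_neg, h2]
    abel
  rw [h1]
  have h3 : ∑ p ∈ rr U A, g p.1 * conj (g p.2) =
      ∑ y ∈ bar U A, ∑ p ∈ (rr U A).filter (fun p => (QuotientAddGroup.mk p.1 : Γ ⧸ U) = y),
        g p.1 * conj (g p.2) := by
    rw [Finset.sum_fiberwise_of_maps_to]
    intro p hp
    simp only [rr, mem_filter, mem_product] at hp
    exact mem_bar hp.1.1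
  rw [h3]
  push_cast
  refine Finset.sum_congr rfl fun y _ => ?_
  rw [Complex.normSq_eq_conj_mul_self, mul_comm, map_sum, Finset.sum_mul_sum,
    ← Finset.sum_product']
  refine Finset.sum_congr ?_ fun _ _ => rfl
  ext p
  simp only [rr, mem_filter, mem_product]
  constructor
  · rintro ⟨⟨⟨ha, hb⟩, hab⟩, hy⟩
    refine ⟨⟨ha, hy⟩, hb, ?_⟩
    rw [← hy, eq_comm, ← sub_eq_zero, ← QuotientAddGroup.mk_sub]
    exact (QuotientAddGroup.eq_zero_iff _).2 hab
  · rintro ⟨⟨ha, hy⟩, hb, hy'⟩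
    refine ⟨⟨⟨ha, hb⟩, ?_⟩, hy⟩
    rw [← QuotientAddGroup.eq_zero_iff, QuotientAddGroup.mk_sub, hy, hy', sub_self]

omit [Finite U] in
theorem rhat_zero (A : Finset Γ) : rhat A (0 : AddChar U ℂ) = (rr U A).card := by
  rw [rhat, Finset.card_eq_sum_ones]
  push_cast
  refine Finset.sum_congr rfl fun p hp => ?_
  simp only [rr, mem_filter] at hp
  rw [cext_mem _ hp.2]
  simp

theorem sum_cext [Fintype (AddChar U ℂ)] (x : Γ) (hx : x ∈ U) :
    ∑ χ : AddChar U ℂ, cext U χ x = if x = 0 then (Nat.card U : ℂ) else 0 := by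
  have : Fintype U := Fintype.ofFinite U
  have h1 : ∑ χ : AddChar U ℂ, cext U χ x = ∑ χ : AddChar U ℂ, χ ⟨x, hx⟩ :=
    Finset.sum_congr rfl fun χ _ => cext_mem χ hx
  rw [h1]
  have h2 := AddChar.sum_apply_eq_ite (⟨x, hx⟩ : U)
  rw [Nat.card_eq_fintype_card]
  have h3 : ((⟨x, hx⟩ : U) = 0) ↔ x = 0 :=
    ⟨fun h => congrArg Subtype.val h, fun h => Subtype.ext h⟩
  simp only [h3] at h2
  rw [← h2]
  exact Finset.sum_congr (by ext; simp) fun _ _ => rfl

theorem sum_rhat [Fintype (AddChar U ℂ)] (A : Finset Γ) :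
    ∑ χ : AddChar U ℂ, rhat A χ = (Nat.card U : ℂ) * A.card := by
  simp only [rhat]
  rw [Finset.sum_comm]
  have h1 : ∀ p ∈ rr U A, ∑ χ : AddChar U ℂ, cext U χ (p.1 - p.2) =
      if p.1 = p.2 then (Nat.card U : ℂ) else 0 := by
    intro p hp
    simp only [rr, mem_filter] at hp
    rw [sum_cext _ hp.2]
    simp only [sub_eq_zero]
  rw [Finset.sum_congr rfl h1, ← Finset.sum_filter, Finset.sum_const, nsmul_eq_mul, mul_comm]
  congr 2
  have : (rr U A).filter (fun p => p.1 = p.2) = A.image (fun a => (a, a)) := by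
    ext ⟨a, b⟩
    simp only [rr, mem_filter, mem_product, mem_image, Prod.mk.injEq]
    constructor
    · rintro ⟨⟨⟨ha, -⟩, -⟩, rfl⟩
      exact ⟨a, ha, rfl, rfl⟩
    · rintro ⟨c, hc, rfl, rfl⟩
      exact ⟨⟨⟨hc, hc⟩, by simp⟩, rfl⟩
  rw [this, Finset.card_image_of_injective]
  intro a b h
  exact (Prod.mk.inj h).1

/-- geometric sums -/
theorem geom (z : ℂ) (N : ℕ) (hz : z ^ N = 1) :
    ∑ n ∈ range N, z ^ n = if z = 1 then (N : ℂ) else 0 := by
  split_ifs with h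
  · simp [h]
  · have := geom_sum_eq h N
    rw [this, hz, sub_self, zero_div]

theorem energy_identity [Fintype (AddChar U ℂ)] (A : Finset Γ) (N : ℕ) (hN : Nat.card U ∣ N) :
    ∑ n ∈ range N, (Nat.card U : ℂ) * (NU U A n : ℂ) =
      N * ∑ χ : AddChar U ℂ, rhat A χ * ((rr (cker χ) A).card : ℂ) := by
  have h1 : ∀ n : ℕ, (Nat.card U : ℂ) * (NU U A n : ℂ) =
      ∑ χ : AddChar U ℂ, rhat A χ * ∑ q ∈ rr U A, (cext U χ (q.1 - q.2)) ^ n := by
    intro n
    simp only [NU, rhat]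
    rw [Finset.card_filter]
    push_cast
    rw [Finset.mul_sum]
    simp only [Finset.sum_mul_sum]
    rw [Finset.sum_comm, Finset.sum_product]
    refine Finset.sum_congr rfl fun p hp => ?_
    rw [Finset.sum_comm]
    refine Finset.sum_congr rfl fun q hq => ?_
    simp only [rr, mem_filter] at hp hq
    have h2 : p.1 - p.2 + n • (q.1 - q.2) ∈ U := U.add_mem hp.2 (U.nsmul_mem hq.2 n)
    have h3 := sum_cext (U := U) _ h2
    have h4 : ∀ χ : AddChar U ℂ, cext U χ (p.1 - p.2 + n • (q.1 - q.2)) =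
        cext U χ (p.1 - p.2) * cext U χ (q.1 - q.2) ^ n := by
      intro χ
      rw [cext_mem χ h2, cext_mem χ hp.2, cext_mem χ hq.2, ← AddChar.map_nsmul_eq_pow,
        ← AddChar.map_add_eq_mul]
      rfl
    rw [← Finset.sum_congr rfl fun χ _ => h4 χ, h3]
    split_ifs <;> simp
  rw [Finset.sum_congr rfl fun n _ => h1 n, Finset.sum_comm, Finset.mul_sum]
  refine Finset.sum_congr rfl fun χ _ => ?_
  rw [← Finset.mul_sum, mul_left_comm]
  congr 1
  rw [Finset.sum_comm]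
  have h5 : ∀ q ∈ rr U A, ∑ n ∈ range N, cext U χ (q.1 - q.2) ^ n =
      if q.1 - q.2 ∈ cker χ then (N : ℂ) else 0 := by
    intro q hq
    simp only [rr, mem_filter] at hq
    rw [cext_mem χ hq.2, geom]
    · have : (χ ⟨q.1 - q.2, hq.2⟩ = 1) ↔ q.1 - q.2 ∈ cker χ :=
        ⟨fun h => ⟨hq.2, h⟩, fun ⟨_, h⟩ => h⟩
      simp only [this]
    · rw [← AddChar.map_nsmul_eq_pow]
      obtain ⟨k, rfl⟩ := hN
      have : (Nat.card U * k) • (⟨q.1 - q.2, hq.2⟩ : U) = 0 := by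
        rw [mul_nsmul, card_nsmul_eq_zero', nsmul_zero]
      rw [this, AddChar.map_zero_eq_one]
  rw [Finset.sum_congr rfl h5, ← Finset.sum_filter, Finset.sum_const, nsmul_eq_mul, mul_comm]
  congr 2
  congr 1
  ext q
  simp only [rr, mem_filter]
  constructor
  · rintro ⟨⟨h1, -⟩, h2⟩; exact ⟨h1, h2⟩
  · rintro ⟨h1, h2⟩; exact ⟨⟨h1, cker_le χ h2⟩, h2⟩

/-- the averaged energy inequality -/
theorem energy_le (A : Finset Γ) (N : ℕ) (hN : Nat.card U ∣ N) (M : ℝ) (hM0 : 0 ≤ M)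
    (hM : ∀ V : AddSubgroup Γ, V ≤ U → V ≠ U → ((rr V A).card : ℝ) ≤ M) :
    (Nat.card U : ℝ) * ∑ n ∈ range N, (NU U A n : ℝ) ≤
      N * ((A.card : ℝ) ^ 4 + M * (Nat.card U * A.card)) := by
  have hfin : Finite (AddChar U ℂ) := inferInstance
  have : Fintype (AddChar U ℂ) := Fintype.ofFinite _
  choose R hR0 hR using fun χ : AddChar U ℂ => rhat_nonneg A χ
  have h1 := energy_identity (U := U) A N hN
  have h2 := sum_rhat (U := U) A
  simp only [hR] at h1 h2
  have h1' : (Nat.card U : ℝ) * ∑ n ∈ range N, (NU U A n : ℝ) =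
      N * ∑ χ : AddChar U ℂ, R χ * ((rr (cker χ) A).card : ℝ) := by
    rw [Finset.mul_sum]
    exact_mod_cast h1
  have h2' : ∑ χ : AddChar U ℂ, R χ = (Nat.card U : ℝ) * A.card := by exact_mod_cast h2
  have h3 : R 0 = (rr U A).card := by
    have := hR 0
    rw [rhat_zero] at this
    exact_mod_cast this.symm
  rw [h1']
  refine mul_le_mul_of_nonneg_left ?_ (Nat.cast_nonneg N)
  have h4 : ∀ χ : AddChar U ℂ, R χ * ((rr (cker χ) A).card : ℝ) ≤
      (if χ = 0 then (A.card : ℝ) ^ 4 else 0) + M * R χ := by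
    intro χ
    by_cases hχ : χ = 0
    · rw [if_pos hχ, hχ]
      have h5 : R 0 ≤ (A.card : ℝ) ^ 2 := by
        rw [h3]; exact_mod_cast rr_card_le U A
      have h6 : ((rr (cker (0 : AddChar U ℂ)) A).card : ℝ) ≤ (A.card : ℝ) ^ 2 := by
        exact_mod_cast rr_card_le _ A
      have h7 : R 0 * ((rr (cker (0 : AddChar U ℂ)) A).card : ℝ) ≤
          (A.card : ℝ) ^ 2 * (A.card : ℝ) ^ 2 :=
        mul_le_mul h5 h6 (Nat.cast_nonneg _) (by positivity)
      have h8 : 0 ≤ M * R 0 := mul_nonneg hM0 (hR0 0)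
      calc _ ≤ _ := h7
        _ = (A.card : ℝ) ^ 4 := by ring
        _ ≤ _ := le_add_of_nonneg_right h8
    · rw [if_neg hχ, zero_add, mul_comm]
      exact mul_le_mul_of_nonneg_right (hM _ (cker_le χ) (cker_ne χ hχ)) (hR0 χ)
  calc ∑ χ : AddChar U ℂ, R χ * ((rr (cker χ) A).card : ℝ)
      ≤ ∑ χ : AddChar U ℂ, ((if χ = 0 then (A.card : ℝ) ^ 4 else 0) + M * R χ) :=
        Finset.sum_le_sum fun χ _ => h4 χ
    _ = (A.card : ℝ) ^ 4 + M * (Nat.card U * A.card) := by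
        rw [Finset.sum_add_distrib, Finset.sum_ite_eq' Finset.univ (0 : AddChar U ℂ),
          if_pos (Finset.mem_univ _), ← Finset.mul_sum, h2']

end chars

end Pool.Agent.TH414.Dil
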