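import Pool.Agent.TH414.Dil.Main
import Mathlib.Analysis.Convex.Basic
import Mathlib.Topology.MetricSpace.ProperSpace
import Mathlib.Analysis.Normed.Module.Basic

/-!
# Sums of dilates: final statements
-/

set_option autoImplicit false

namespace Pool.Agent.TH414.Dil

open Finset
open scoped Pointwise Classical

variable {Γ : Type*} [AddCommGroup Γ]

/-- the starting subgroup -/
theorem start (A : Finset Γ) (hA : A.Nonempty) (K : ℝ)
    (hdil : ∀ n : ℕ, ((A + nd n A).card : ℝ) ≤ K * A.card) :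
    ∃ U : AddSubgroup Γ, Finite U ∧ ((bar U A).card : ℝ) ≤ K := by
  set S : Finset Γ := ((A ×ˢ A).image (fun p => p.1 - p.2)).filter
    (fun x => IsOfFinAddOrder x) with hS
  set U := AddSubgroup.closure (S : Set Γ) with hU
  have htor : ∀ x ∈ U, IsOfFinAddOrder x := by
    intro x hx
    refine AddSubgroup.closure_induction (p := fun x _ => IsOfFinAddOrder x) ?_ ?_ ?_ ?_ hx
    · intro y hy
      exact (Finset.mem_filter.1 (Finset.mem_coe.1 hy)).2
    · exact IsOfFinAddOrder.zero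
    · intro y z _ _ hy hz
      exact hy.add hz
    · intro y _ hy
      exact hy.neg
  have hfg : AddGroup.FG U := (AddGroup.fg_iff_addSubgroup_fg U).2 ⟨S, rfl⟩
  have hUtor : IsAddTorsion U := by
    intro x
    have h := htor x.1 x.2
    rw [isOfFinAddOrder_iff_nsmul_eq_zero] at h ⊢
    obtain ⟨n, hn, h⟩ := h
    exact ⟨n, hn, Subtype.ext (by simpa using h)⟩
  have hfin : Finite U := AddCommGroup.finite_of_fg_isAddTorsion U hUtor
  refine ⟨U, hfin, ?_⟩
  refine strong_rigid U A hA K hdil ((bar U A).card ^ 4 + 1) ?_ (Nat.lt_succ_self _)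
  intro β hβ δ hδ hne
  left
  obtain ⟨b, hb, rfl⟩ := exists_rep hβ
  obtain ⟨d, hd, rfl⟩ := exists_rep hδ
  rw [addOrderOf_eq_zero_iff]
  intro hfo
  apply hne
  rw [isOfFinAddOrder_iff_nsmul_eq_zero] at hfo
  obtain ⟨n, hn, h⟩ := hfo
  rw [← QuotientAddGroup.mk_sub, ← QuotientAddGroup.mk_nsmul, QuotientAddGroup.eq_zero_iff] at h
  have h1 := htor _ h
  have h2 : IsOfFinAddOrder (b - d) := by
    rw [isOfFinAddOrder_iff_nsmul_eq_zero] at h1 ⊢
    obtain ⟨m, hm, h1⟩ := h1
    exact ⟨m * n, Nat.mul_pos hm hn, by rw [mul_nsmul', h1]⟩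
  rw [← QuotientAddGroup.mk_sub, QuotientAddGroup.eq_zero_iff]
  refine AddSubgroup.subset_closure ?_
  rw [hS, Finset.mem_coe, Finset.mem_filter]
  exact ⟨Finset.mem_image.2 ⟨(b, d), Finset.mem_product.2 ⟨hb, hd⟩, rfl⟩, h2⟩

/-- **Structure theorem for sets all of whose sums of dilates are small.** -/
theorem structure_thm (A : Finset Γ) (hA : A.Nonempty) (K : ℝ) (hK : 1 ≤ K)
    (hΓ : ∀ p : ℕ, p.Prime → (p : ℝ) ≤ 16 * K ^ 4 → ∀ x : Γ, p • x = 0 → x = 0)
    (hdil : ∀ n : ℕ, ((A + nd n A).card : ℝ) ≤ K * A.card) :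
    ∃ U : AddSubgroup Γ, Finite U ∧ ((bar U A).card : ℝ) ≤ K ∧
      (Nat.card U : ℝ) ≤ 2 * K * A.card := by
  set Q := ⌊16 * K ^ 4⌋₊ + 1 with hQ
  have hQ' : 16 * K ^ 4 < Q := by rw [hQ]; push_cast; exact Nat.lt_floor_add_one _
  have hΓ' : ∀ p : ℕ, p.Prime → p < Q → ∀ x : Γ, p • x = 0 → x = 0 := by
    intro p hp hpQ
    refine hΓ p hp ?_
    have h1 : p ≤ ⌊16 * K ^ 4⌋₊ := Nat.lt_succ_iff.1 hpQ
    exact (Nat.le_floor_iff (by positivity)).1 h1
  have key : ∀ k : ℕ, ∀ U : AddSubgroup Γ, Finite U → Nat.card U = k →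
      ((bar U A).card : ℝ) ≤ K → ∃ U : AddSubgroup Γ, Finite U ∧ ((bar U A).card : ℝ) ≤ K ∧
      (Nat.card U : ℝ) ≤ 2 * K * A.card := by
    intro k
    induction k using Nat.strong_induction_on with
    | _ k ih =>
      intro U hfin hUk hc
      by_cases h : (Nat.card U : ℝ) ≤ 2 * K * A.card
      · exact ⟨U, hfin, hc, h⟩
      · push Not at h
        obtain ⟨V, hVU, hVne, hVc⟩ := step A hA K hK Q hQ' hΓ' hdil U hc h
        have hVfin : Finite V := Finite.of_injective _ (AddSubgroup.inclusion_injective hVU)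
        refine ih (Nat.card V) ?_ V hVfin rfl hVc
        rw [← hUk]
        have hlt : (V : Set Γ) ⊂ (U : Set Γ) := by
          rw [Set.ssubset_iff_subset_ne]
          exact ⟨hVU, fun h => hVne (SetLike.coe_injective h)⟩
        have := Set.ncard_lt_ncard hlt (Set.toFinite (U : Set Γ))
        rw [← Nat.card_coe_set_eq, ← Nat.card_coe_set_eq] at this
        exact this
  obtain ⟨U, hfin, hc⟩ := start A hA K hdil
  exact key _ U hfin rfl hc

/-- a coset covered set is contained in few translates -/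
theorem reps (U : AddSubgroup Γ) (A : Finset Γ) :
    ∃ X : Finset Γ, X.card = (bar U A).card ∧ ∀ a ∈ A, ∃ x ∈ X, a - x ∈ U := by
  have hs : ∀ y : Γ ⧸ U, ((Quotient.out y : Γ) : Γ ⧸ U) = y := fun y => Quotient.out_eq' y
  refine ⟨(bar U A).image (fun y => (Quotient.out y : Γ)), ?_, ?_⟩
  · rw [Finset.card_image_of_injective]
    intro y y' h
    rw [← hs y, ← hs y']
    exact congrArg _ h
  · intro a ha
    refine ⟨Quotient.out (a : Γ ⧸ U), Finset.mem_image_of_mem _ (mem_bar ha), ?_⟩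
    rw [← QuotientAddGroup.eq_zero_iff, QuotientAddGroup.mk_sub, hs, sub_self]

/-- generating one more element of small relative order -/
theorem card_sup_le (V : AddSubgroup Γ) [Finite V] (v : Γ) (s : ℕ) (hs : 0 < s)
    (hsv : s • v ∈ V) : Nat.card (V ⊔ AddSubgroup.zmultiples v : AddSubgroup Γ) ≤
      s * Nat.card V := by
  have h1 : Function.Surjective (fun t : Fin s × V =>
      (⟨(t.1 : ℕ) • v + (t.2 : Γ), by
        refine AddSubgroup.add_mem _ ?_ ?_
        · exact AddSubgroup.nsmul_mem _ (AddSubgroup.mem_sup_right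
            (AddSubgroup.mem_zmultiples v)) _
        · exact AddSubgroup.mem_sup_left t.2.2⟩ :
        (V ⊔ AddSubgroup.zmultiples v : AddSubgroup Γ))) := by
    rintro ⟨x, hx⟩
    obtain ⟨h, hh, z, hz, rfl⟩ := AddSubgroup.mem_sup.1 hx
    obtain ⟨m, rfl⟩ := AddSubgroup.mem_zmultiples_iff.1 hz
    have hs' : (0 : ℤ) < s := by exact_mod_cast hs
    have hr0 := Int.emod_nonneg m hs'.ne'
    have hr1 := Int.emod_lt_of_pos m hs'
    refine ⟨(⟨(m % s).toNat, by omega⟩, ⟨(m / s) • (s • v) + h, ?_⟩), ?_⟩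
    · exact V.add_mem (V.zsmul_mem hsv _) hh
    · apply Subtype.ext
      simp only
      have e1 : ((m % s).toNat : ℕ) • v = (m % s) • v := by
        rw [← natCast_zsmul, Int.toNat_of_nonneg hr0]
      rw [e1, ← natCast_zsmul v s, smul_smul, ← add_assoc, ← add_smul]
      have e2 : m % s + m / s * s = m := by
        rw [mul_comm]; exact Int.emod_add_mul_ediv m s
      rw [e2, add_comm]
  have h2 := Nat.card_le_card_of_surjective _ h1
  rwa [Nat.card_prod, Nat.card_fin] at h2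

/-- the lattice points of the interval `[-(N+1/2), N+1/2]` -/
theorem lattice_count (N : ℕ) :
    {x : Fin 1 → ℤ | (fun i => (x i : ℝ)) ∈
      Metric.closedBall (0 : Fin 1 → ℝ) ((N : ℝ) + 1 / 2)}.ncard = 2 * N + 1 := by
  have h1 : {x : Fin 1 → ℤ | (fun i => (x i : ℝ)) ∈
      Metric.closedBall (0 : Fin 1 → ℝ) ((N : ℝ) + 1 / 2)} =
      (fun m : ℤ => (fun _ : Fin 1 => m)) '' (Finset.Icc (-(N : ℤ)) N : Finset ℤ) := by
    ext x
    simp only [Set.mem_ofPred_eq, mem_closedBall_zero_iff, Set.mem_image, Finset.coe_Icc,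
      Set.mem_Icc]
    have hN : (0 : ℝ) ≤ (N : ℝ) + 1 / 2 := by positivity
    rw [pi_norm_le_iff_of_nonneg hN]
    constructor
    · intro h
      have h0 := h 0
      rw [Real.norm_eq_abs, abs_le] at h0
      refine ⟨x 0, ⟨?_, ?_⟩, ?_⟩
      · have : (-(N : ℤ) : ℝ) - 1 < (x 0 : ℝ) := by push_cast; linarith [h0.1]
        have h2 : (-(N : ℤ) - 1 : ℤ) < x 0 := by exact_mod_cast this
        omega
      · have : (x 0 : ℝ) < (N : ℝ) + 1 := by linarith [h0.2]
        have h2 : x 0 < (N : ℤ) + 1 := by exact_mod_cast this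
        omega
      · funext i
        rw [Subsingleton.elim i 0]
    · rintro ⟨m, ⟨h1, h2⟩, rfl⟩ i
      rw [Real.norm_eq_abs, abs_le]
      have h1' : (-(N : ℝ)) ≤ (m : ℝ) := by exact_mod_cast h1
      have h2' : (m : ℝ) ≤ (N : ℝ) := by exact_mod_cast h2
      constructor
      · simp only; linarith
      · simp only; linarith
  rw [h1, Set.ncard_image_of_injective, Set.ncard_coe_finset, Int.card_Icc]
  · omega
  · intro a b h
    exact congrFun h 0

/-- the conclusion of the problem, in dimension one -/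
theorem q1_of (A : Finset Γ) (V : AddSubgroup Γ) [Finite V] (v : Γ) (N : ℕ)
    (hvol : (2 * N + 1) * Nat.card V ≤ A.card) (T : Finset Γ)
    (hT : ∀ a ∈ A, ∃ t ∈ T, ∃ m : ℤ, |m| ≤ N ∧ a - t - m • v ∈ V) :
    ∃ (B : Set (Fin 1 → ℝ)) (ψ : (Fin 1 → ℤ) →+ Γ),
      Convex ℝ B ∧ IsCompact B ∧ (interior B).Nonempty ∧ (∀ x ∈ B, -x ∈ B) ∧
      {x : Fin 1 → ℤ | (fun i => (x i : ℝ)) ∈ B}.ncard * Nat.card V ≤ A.card ∧
      ∀ a ∈ A, ∃ t ∈ T, ∃ x : Fin 1 → ℤ, (fun i => (x i : ℝ)) ∈ B ∧
        ∃ h ∈ V, a = t + ψ x + h := by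
  have hN : (0 : ℝ) < (N : ℝ) + 1 / 2 := by positivity
  refine ⟨Metric.closedBall 0 ((N : ℝ) + 1 / 2),
    ((zmultiplesHom Γ) v).comp (Pi.evalAddMonoidHom (fun _ : Fin 1 => ℤ) 0),
    convex_closedBall _ _, isCompact_closedBall _ _, ?_, ?_, ?_, ?_⟩
  · exact ⟨0, interior_mono Metric.ball_subset_closedBall
      (by rw [Metric.isOpen_ball.interior_eq]; exact Metric.mem_ball_self hN)⟩
  · intro x hx
    rw [mem_closedBall_zero_iff] at hx ⊢
    rwa [norm_neg]
  · rw [lattice_count]; exact hvol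
  · intro a ha
    obtain ⟨t, ht, m, hm, hmem⟩ := hT a ha
    refine ⟨t, ht, fun _ => m, ?_, a - t - m • v, hmem, ?_⟩
    · rw [mem_closedBall_zero_iff, pi_norm_le_iff_of_nonneg hN.le]
      intro i
      rw [Real.norm_eq_abs]
      have : (|(m : ℝ)|) ≤ (N : ℝ) := by exact_mod_cast hm
      linarith
    · simp only [AddMonoidHom.comp_apply, Pi.evalAddMonoidHom_apply, zmultiplesHom_apply]
      abel

/-- few translates of a subgroup give few translates of a one-dimensional coset progression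
of volume at most `|A|` -/
theorem q1_form (A : Finset Γ) (hA : A.Nonempty) (K : ℝ) (hK : 1 ≤ K) (U : AddSubgroup Γ)
    [Finite U] (hc : ((bar U A).card : ℝ) ≤ K) (hU : (Nat.card U : ℝ) ≤ 2 * K * A.card) :
    ∃ (B : Set (Fin 1 → ℝ)) (ψ : (Fin 1 → ℤ) →+ Γ) (H : AddSubgroup Γ) (T : Finset Γ),
      Convex ℝ B ∧ IsCompact B ∧ (interior B).Nonempty ∧ (∀ x ∈ B, -x ∈ B) ∧
      Finite H ∧
      {x : Fin 1 → ℤ | (fun i => (x i : ℝ)) ∈ B}.ncard * Nat.card H ≤ A.card ∧
      (T.card : ℝ) ≤ 8 * K ^ 2 ∧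
      ∀ a ∈ A, ∃ t ∈ T, ∃ x : Fin 1 → ℤ, (fun i => (x i : ℝ)) ∈ B ∧
        ∃ h ∈ H, a = t + ψ x + h := by
  have hA0 : 0 < A.card := hA.card_pos
  -- a subgroup of maximal order at most `|A|`
  let P : ℕ → Prop := fun k => ∃ V : AddSubgroup Γ, V ≤ U ∧ Nat.card V = k
  have hP1 : P 1 := ⟨⊥, bot_le, by simp⟩
  obtain ⟨V, hVU, hVg⟩ : P (Nat.findGreatest P A.card) := Nat.findGreatest_spec hA0 hP1
  have hVA : Nat.card V ≤ A.card := hVg ▸ Nat.findGreatest_le A.card
  have hmax : ∀ W : AddSubgroup Γ, W ≤ U → Nat.card W ≤ A.card → Nat.card W ≤ Nat.card V := by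
    intro W hW hWA
    rw [hVg]
    exact Nat.le_findGreatest hWA ⟨W, hW, rfl⟩
  have hVfin : Finite V := Finite.of_injective _ (AddSubgroup.inclusion_injective hVU)
  have hV0 : 0 < Nat.card V := Nat.card_pos
  obtain ⟨X, hX, hXcov⟩ := reps U A
  by_cases hVeq : V = U
  · have hT : ∀ a ∈ A, ∃ t ∈ X, ∃ m : ℤ, |m| ≤ (0 : ℕ) ∧ a - t - m • (0 : Γ) ∈ V := by
      intro a ha
      obtain ⟨x, hx, h⟩ := hXcov a ha
      exact ⟨x, hx, 0, by simp, by rw [hVeq]; simpa using h⟩
    obtain ⟨B, ψ, h1, h2, h3, h4, h5, h6⟩ := q1_of A V 0 0 (by simpa using hVA) X hT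
    refine ⟨B, ψ, V, X, h1, h2, h3, h4, hVfin, h5, ?_, h6⟩
    rw [hX]
    nlinarith
  · obtain ⟨v, hvU, hvV⟩ : ∃ v ∈ U, v ∉ V := by
      by_contra hcon
      push Not at hcon
      exact hVeq (le_antisymm hVU hcon)
    set M := A.card / Nat.card V with hM
    have hM1 : 1 ≤ M := (Nat.one_le_div_iff hV0).2 hVA
    have hMV : M * Nat.card V ≤ A.card := Nat.div_mul_le_self _ _
    set N := (M - 1) / 2 with hN
    have hsup : ∀ s : ℕ, 0 < s → s ≤ N → s • v ∉ V := by
      intro s hs hsN hsv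
      have h1 := card_sup_le V v s hs hsv
      have h2 : Nat.card (V ⊔ AddSubgroup.zmultiples v : AddSubgroup Γ) ≤ A.card := by
        refine le_trans h1 (le_trans (Nat.mul_le_mul_right _ ?_) hMV)
        omega
      have h3 : (V ⊔ AddSubgroup.zmultiples v : AddSubgroup Γ) ≤ U :=
        sup_le hVU (by rw [AddSubgroup.zmultiples_le]; exact hvU)
      have h4 := hmax _ h3 h2
      have hlt : (V : Set Γ) ⊂ ((V ⊔ AddSubgroup.zmultiples v : AddSubgroup Γ) : Set Γ) := by
        rw [Set.ssubset_iff_of_subset (by exact_mod_cast le_sup_left)]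
        exact ⟨v, AddSubgroup.mem_sup_right (AddSubgroup.mem_zmultiples v), hvV⟩
      have hWfin : Finite (V ⊔ AddSubgroup.zmultiples v : AddSubgroup Γ) :=
        Finite.of_injective _ (AddSubgroup.inclusion_injective h3)
      have h5 := Set.ncard_lt_ncard hlt (Set.toFinite _)
      rw [← Nat.card_coe_set_eq, ← Nat.card_coe_set_eq] at h5
      exact absurd h4 (not_le.2 h5)
    have : Fintype V := Fintype.ofFinite V
    set R : Finset Γ := ((range (N + 1)) ×ˢ (Finset.univ : Finset V)).image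
      (fun t => t.1 • v + (t.2 : Γ)) with hR
    have hRcard : R.card = (N + 1) * Nat.card V := by
      rw [hR, Finset.card_image_of_injOn, card_product, card_range, Finset.card_univ,
        Nat.card_eq_fintype_card]
      have aux : ∀ i j : ℕ, i ≤ N → j ≤ N → ∀ h h' : V, i < j →
          i • v + (h : Γ) ≠ j • v + (h' : Γ) := by
        intro i j hi hj h h' hij heq
        refine hsup (j - i) (by omega) (by omega) ?_
        have : (j - i) • v = (h : Γ) - h' := by
          have e : j • v = i • v + (j - i) • v := by rw [← add_nsmul]; congr 1; omega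
          rw [e] at heq
          have := add_left_cancel (a := i • v) (b := (h : Γ)) (c := (j - i) • v + h')
            (by rw [heq]; abel)
          rw [this]; abel
        rw [this]
        exact V.sub_mem h.2 h'.2
      rintro ⟨i, h⟩ hi ⟨j, h'⟩ hj heq
      simp only [coe_product, Set.mem_prod, Finset.mem_coe, mem_range] at hi hj heq
      rcases lt_trichotomy i j with hij | hij | hij
      · exact absurd heq (aux i j (by omega) (by omega) h h' hij)
      · subst hij
        have : h = h' := Subtype.ext (add_left_cancel heq)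
        rw [this]
      · exact absurd heq.symm (aux j i (by omega) (by omega) h' h hij)
    have hRne : R.Nonempty := by
      rw [← Finset.card_pos, hRcard]; positivity
    have hRU : ∀ r ∈ R, r ∈ U := by
      intro r hr
      obtain ⟨t, -, rfl⟩ := Finset.mem_image.1 hr
      exact U.add_mem (U.nsmul_mem hvU _) (hVU t.2.2)
    have h1 : (A + R).card ≤ X.card * Nat.card U := by
      have hUf : Fintype U := Fintype.ofFinite U
      have hsub : A + R ⊆ (X ×ˢ (Finset.univ : Finset U)).image (fun t => t.1 + (t.2 : Γ)) := by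
        intro y hy
        obtain ⟨a, ha, r, hr, rfl⟩ := Finset.mem_add.1 hy
        obtain ⟨x, hx, hax⟩ := hXcov a ha
        refine Finset.mem_image.2 ⟨(x, ⟨a - x + r, U.add_mem hax (hRU r hr)⟩), ?_, ?_⟩
        · exact Finset.mem_product.2 ⟨hx, Finset.mem_univ _⟩
        · simp only; abel
      refine le_trans (Finset.card_le_card hsub) (le_trans Finset.card_image_le ?_)
      rw [card_product, Finset.card_univ, Nat.card_eq_fintype_card]
    have h2 : A.card ≤ 4 * R.card := by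
      rw [hRcard]
      have e1 : A.card < (M + 1) * Nat.card V := by
        rw [mul_comm]; exact Nat.lt_mul_div_succ _ hV0
      have e2 : M + 1 ≤ 4 * (N + 1) := by omega
      calc A.card ≤ (M + 1) * Nat.card V := e1.le
        _ ≤ 4 * (N + 1) * Nat.card V := Nat.mul_le_mul_right _ e2
        _ = _ := by ring
    have h3 : ((A + R).card : ℝ) ≤ 8 * K ^ 2 * R.card := by
      have e1 : ((A + R).card : ℝ) ≤ (X.card : ℝ) * Nat.card U := by exact_mod_cast h1
      have e2 : (A.card : ℝ) ≤ 4 * R.card := by exact_mod_cast h2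
      rw [hX] at e1
      calc ((A + R).card : ℝ) ≤ _ := e1
        _ ≤ K * (2 * K * A.card) := mul_le_mul hc hU (Nat.cast_nonneg _) (by linarith)
        _ ≤ K * (2 * K * (4 * R.card)) := by
            have : 0 ≤ K := by linarith
            gcongr
        _ = _ := by ring
    obtain ⟨F, hFA, hF, hcov⟩ := Finset.ruzsa_covering_add hRne h3
    have hT : ∀ a ∈ A, ∃ t ∈ F, ∃ m : ℤ, |m| ≤ (N : ℕ) ∧ a - t - m • v ∈ V := by
      intro a ha
      obtain ⟨f, hf, d, hd, rfl⟩ := Finset.mem_add.1 (hcov ha)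
      obtain ⟨r, hr, r', hr', rfl⟩ := Finset.mem_sub.1 hd
      obtain ⟨t, ht, rfl⟩ := Finset.mem_image.1 hr
      obtain ⟨t', ht', rfl⟩ := Finset.mem_image.1 hr'
      rw [mem_product, mem_range] at ht ht'
      refine ⟨f, hf, (t.1 : ℤ) - t'.1, ?_, ?_⟩
      · rw [abs_le]; omega
      · have : f + (t.1 • v + (t.2 : Γ) - (t'.1 • v + (t'.2 : Γ))) - f -
            ((t.1 : ℤ) - t'.1) • v = (t.2 : Γ) - t'.2 := by
          rw [sub_smul, natCast_zsmul, natCast_zsmul]; abel
        rw [this]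
        exact V.sub_mem t.2.2 t'.2.2
    obtain ⟨B, ψ, g1, g2, g3, g4, g5, g6⟩ := q1_of A V v N (by
      refine le_trans (Nat.mul_le_mul_right _ ?_) hMV
      omega) F hT
    exact ⟨B, ψ, V, F, g1, g2, g3, g4, hVfin, g5, hF, g6⟩

end Pool.Agent.TH414.Dil
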