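import Pool.Agent.TH414.Dil.Energy
import Mathlib.GroupTheory.FiniteAbelian.Basic
import Mathlib.Combinatorics.Additive.RuzsaCovering

/-!
# Sums of dilates: the structure theorem
-/

set_option autoImplicit false

namespace Pool.Agent.TH414.Dil

open Finset
open scoped Pointwise Classical

variable {Γ : Type*} [AddCommGroup Γ]

theorem LST_of_prime (Q : ℕ)
    (hΓ : ∀ p : ℕ, p.Prime → p < Q → ∀ x : Γ, p • x = 0 → x = 0)
    (U : AddSubgroup Γ) [Finite U] (A : Finset Γ) : LST Q U A :=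
  fun β _ δ _ h => NST_quotient Q hΓ U (β - δ) h

/-- a popular coset of `V` bounds the number of cosets -/
theorem few_cosets (V : AddSubgroup Γ) (A : Finset Γ) (K m : ℝ) (hm : 0 < m)
    (h1 : ((A + A).card : ℝ) ≤ K * A.card) (hr : m * A.card ≤ (rr V A).card) (hA : A.Nonempty) :
    ((bar V A).card : ℝ) * m ≤ K * A.card := by
  have h2 : (rr V A).card = ∑ a ∈ A, (A.filter (fun c => a - c ∈ V)).card := by
    rw [Finset.card_eq_sum_card_fiberwise (f := fun p : Γ × Γ => p.1) (t := A)]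
    · refine Finset.sum_congr rfl fun a ha => ?_
      refine Finset.card_bij' (fun p _ => p.2) (fun c _ => (a, c)) ?_ ?_ ?_ ?_
      · rintro ⟨x, y⟩ h
        simp only [rr, mem_filter, mem_product] at h ⊢
        obtain ⟨⟨⟨h1, h2⟩, h3⟩, h4⟩ := h
        exact ⟨h2, h4 ▸ h3⟩
      · intro c h
        simp only [rr, mem_filter, mem_product] at h ⊢
        exact ⟨⟨⟨ha, h.1⟩, h.2⟩, trivial⟩
      · rintro ⟨x, y⟩ h
        simp only [rr, mem_filter, mem_product] at h
        simp only [h.2]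
      · intro c h
        rfl
    · rintro ⟨x, y⟩ h
      simp only [rr, coe_filter, mem_product, Set.mem_ofPred_eq] at h
      exact h.1.1
  obtain ⟨a, ha, hm'⟩ : ∃ a ∈ A, m ≤ ((A.filter (fun c => a - c ∈ V)).card : ℝ) := by
    by_contra hcon
    push Not at hcon
    have h3 : ((rr V A).card : ℝ) < ∑ a ∈ A, m := by
      rw [h2]
      push_cast
      exact Finset.sum_lt_sum_of_nonempty hA hcon
    rw [Finset.sum_const, nsmul_eq_mul] at h3
    linarith
  set A1 := A.filter (fun c => a - c ∈ V) with hA1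
  have hs : ∀ y : Γ ⧸ V, ∃ b : Γ, y ∈ bar V A → b ∈ A ∧ (b : Γ ⧸ V) = y := by
    intro y
    by_cases hy : y ∈ bar V A
    · obtain ⟨b, hb, hby⟩ := exists_rep hy
      exact ⟨b, fun _ => ⟨hb, hby⟩⟩
    · exact ⟨0, fun h => absurd h hy⟩
  choose s hs using hs
  have h4 : (bar V A).card * A1.card ≤ (A + A).card := by
    rw [← Finset.card_product]
    refine Finset.card_le_card_of_injOn (fun t => s t.1 + t.2) ?_ ?_
    · rintro ⟨y, c⟩ ht
      rw [Finset.mem_coe, mem_product] at ht
      exact Finset.mem_coe.2 (Finset.add_mem_add (hs y ht.1).1 (Finset.mem_filter.1 ht.2).1)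
    · rintro ⟨y, c⟩ ht ⟨y', c'⟩ ht' heq
      rw [Finset.mem_coe, mem_product] at ht ht'
      simp only at heq ht ht'
      have hc := (Finset.mem_filter.1 ht.2).2
      have hc' := (Finset.mem_filter.1 ht'.2).2
      have h5 : (c : Γ ⧸ V) = (c' : Γ ⧸ V) := by
        rw [← sub_eq_zero, ← QuotientAddGroup.mk_sub]
        refine (QuotientAddGroup.eq_zero_iff _).2 ?_
        have : c - c' = (a - c') - (a - c) := by abel
        rw [this]; exact V.sub_mem hc' hc
      have h6 : y = y' := by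
        rw [← (hs y ht.1).2, ← (hs y' ht'.1).2]
        have h7 : ((s y + c : Γ) : Γ ⧸ V) = ((s y' + c' : Γ) : Γ ⧸ V) := by rw [heq]
        rw [QuotientAddGroup.mk_add, QuotientAddGroup.mk_add, h5] at h7
        exact add_right_cancel h7
      subst h6
      have : c = c' := add_left_cancel heq
      rw [this]
  have h5 : ((bar V A).card : ℝ) * A1.card ≤ (A + A).card := by exact_mod_cast h4
  calc ((bar V A).card : ℝ) * m ≤ (bar V A).card * A1.card :=
        mul_le_mul_of_nonneg_left hm' (Nat.cast_nonneg _)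
    _ ≤ _ := h5
    _ ≤ _ := h1

theorem nd_one (A : Finset Γ) : nd 1 A = A := by
  simp [nd]

/-- the descent step -/
theorem step (A : Finset Γ) (hA : A.Nonempty) (K : ℝ) (hK : 1 ≤ K) (Q : ℕ)
    (hQ : 16 * K ^ 4 < Q)
    (hΓ : ∀ p : ℕ, p.Prime → p < Q → ∀ x : Γ, p • x = 0 → x = 0)
    (hdil : ∀ n : ℕ, ((A + nd n A).card : ℝ) ≤ K * A.card)
    (U : AddSubgroup Γ) [Finite U] (hc : ((bar U A).card : ℝ) ≤ K)
    (hU : 2 * K * A.card < (Nat.card U : ℝ)) :
    ∃ V : AddSubgroup Γ, V ≤ U ∧ V ≠ U ∧ ((bar V A).card : ℝ) ≤ K := by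
  have hA0 : (0 : ℝ) < A.card := by exact_mod_cast hA.card_pos
  have hK0 : 0 < K := by linarith
  have hQ0 : (0 : ℝ) < Q := lt_trans (by positivity) hQ
  obtain ⟨N, hN0, hUN, hQN, hN⟩ := exists_N' U A Q (Nat.card U) Nat.card_pos
    (LST_of_prime Q hΓ U A)
  have hbad := bad_count U A N Q hQN hN
  have hNr : (0 : ℝ) < N := by exact_mod_cast hN0
  -- a popular subgroup
  obtain ⟨V, hVU, hVne, hV⟩ : ∃ V : AddSubgroup Γ, V ≤ U ∧ V ≠ U ∧
      7 / 16 * (A.card : ℝ) ^ 2 / K ≤ (rr V A).card := by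
    by_contra hcon
    push Not at hcon
    have h1 := energy_le (U := U) A N hUN (7 / 16 * (A.card : ℝ) ^ 2 / K) (by positivity)
      (fun V h h' => (hcon V h h').le)
    -- lower bound
    set good := (range N).filter (fun n => Good U A n) with hgood
    have h2 : ((good.card : ℕ) : ℝ) * ((A.card : ℝ) ^ 3 / K) ≤ ∑ n ∈ range N, (NU U A n : ℝ) := by
      calc ((good.card : ℕ) : ℝ) * ((A.card : ℝ) ^ 3 / K)
          = ∑ n ∈ good, (A.card : ℝ) ^ 3 / K := by rw [Finset.sum_const, nsmul_eq_mul]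
        _ ≤ ∑ n ∈ good, (NU U A n : ℝ) := by
            refine Finset.sum_le_sum fun n hn => ?_
            have h3 := NU_good U A n (Finset.mem_filter.1 hn).2
            have h4 : (A.card : ℝ) ^ 4 ≤ (A + nd n A).card * (NU U A n : ℝ) := by
              exact_mod_cast h3
            have h5 : (A.card : ℝ) ^ 4 ≤ (K * A.card) * (NU U A n : ℝ) :=
              h4.trans (mul_le_mul_of_nonneg_right (hdil n) (Nat.cast_nonneg _))
            rw [div_le_iff₀ hK0]
            have h6 : (A.card : ℝ) * (A.card : ℝ) ^ 3 ≤ A.card * ((NU U A n : ℝ) * K) := by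
              nlinarith [h5]
            exact le_of_mul_le_mul_left h6 hA0
        _ ≤ ∑ n ∈ range N, (NU U A n : ℝ) :=
            Finset.sum_le_sum_of_subset_of_nonneg (Finset.filter_subset _ _)
              fun _ _ _ => Nat.cast_nonneg _
    have h3 : (15 / 16 : ℝ) * N ≤ good.card := by
      have h4 : good.card + ((range N).filter (fun n => ¬ Good U A n)).card = N := by
        rw [hgood, Finset.card_filter_add_card_filter_not]; simp
      have h5 : (good.card : ℝ) + (((range N).filter (fun n => ¬ Good U A n)).card : ℝ) = N := by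
        exact_mod_cast h4
      have h6 : (Q : ℝ) * (((range N).filter (fun n => ¬ Good U A n)).card : ℝ) ≤
          ((bar U A).card : ℝ) ^ 4 * N := by exact_mod_cast hbad
      have h7 : ((bar U A).card : ℝ) ^ 4 ≤ K ^ 4 :=
        pow_le_pow_left₀ (Nat.cast_nonneg _) hc 4
      have h8 : (Q : ℝ) * (((range N).filter (fun n => ¬ Good U A n)).card : ℝ) ≤
          Q * (N / 16) := by
        calc _ ≤ _ := h6
          _ ≤ K ^ 4 * N := mul_le_mul_of_nonneg_right h7 hNr.le
          _ ≤ (Q / 16) * N := mul_le_mul_of_nonneg_right (by linarith) hNr.le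
          _ = _ := by ring
      have h9 := le_of_mul_le_mul_left h8 hQ0
      linarith
    -- combine
    have hUc : (0 : ℝ) < Nat.card U := by exact_mod_cast Nat.card_pos
    have h4 : (15 / 16 : ℝ) * N * ((A.card : ℝ) ^ 3 / K) ≤ ∑ n ∈ range N, (NU U A n : ℝ) :=
      le_trans (mul_le_mul_of_nonneg_right h3 (by positivity)) h2
    have h5 : (Nat.card U : ℝ) * ((15 / 16 : ℝ) * N * ((A.card : ℝ) ^ 3 / K)) ≤
        N * ((A.card : ℝ) ^ 4 + 7 / 16 * (A.card : ℝ) ^ 2 / K * (Nat.card U * A.card)) :=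
      le_trans (mul_le_mul_of_nonneg_left h4 hUc.le) h1
    have h6 : (N : ℝ) * ((A.card : ℝ) ^ 3 / K * ((Nat.card U : ℝ) / 2)) ≤
        N * ((A.card : ℝ) ^ 3 / K * (K * A.card)) := by
      have e1 : (A.card : ℝ) ^ 4 = (A.card : ℝ) ^ 3 / K * (K * A.card) := by
        field_simp
      have e2 : 7 / 16 * (A.card : ℝ) ^ 2 / K * (Nat.card U * A.card) =
          7 / 16 * ((A.card : ℝ) ^ 3 / K * Nat.card U) := by
        field_simp
      rw [e1, e2] at h5
      nlinarith [h5]
    have h7 := le_of_mul_le_mul_left h6 hNr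
    have h8 := le_of_mul_le_mul_left h7 (by positivity)
    linarith
  have : Finite V := Finite.of_injective _ (AddSubgroup.inclusion_injective hVU)
  refine ⟨V, hVU, hVne, ?_⟩
  have hd1 := hdil 1
  rw [nd_one] at hd1
  have h1 := few_cosets V A K (7 / 16 * A.card / K) (by positivity) hd1 (by
    refine le_trans (le_of_eq ?_) hV
    field_simp) hA
  have h2 : ((bar V A).card : ℝ) ≤ 16 / 7 * K ^ 2 := by
    have h3 : (A.card : ℝ) * ((bar V A).card : ℝ) ≤ A.card * (16 / 7 * K ^ 2) := by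
      have e1 : ((bar V A).card : ℝ) * (7 / 16 * A.card / K) =
          (A.card : ℝ) * ((bar V A).card : ℝ) * (7 / (16 * K)) := by
        field_simp
      rw [e1] at h1
      have e2 : (0 : ℝ) < 7 / (16 * K) := by positivity
      rw [← le_div_iff₀ e2] at h1
      refine le_trans h1 (le_of_eq ?_)
      field_simp
    exact le_of_mul_le_mul_left h3 hA0
  have h3 : 2 * (bar V A).card ^ 2 ≤ Q := by
    have h4 : (2 : ℝ) * ((bar V A).card : ℝ) ^ 2 ≤ Q := by
      have h5 : ((bar V A).card : ℝ) ^ 2 ≤ (16 / 7 * K ^ 2) ^ 2 :=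
        pow_le_pow_left₀ (Nat.cast_nonneg _) h2 2
      nlinarith [h5, hQ, pow_pos hK0 4]
    exact_mod_cast h4
  have hL := LST_of_prime Q hΓ V A
  have h4 := weak_rigid V A hA K hdil Q hL h3
  refine strong_rigid V A hA K hdil Q hL ?_
  have h5 : ((bar V A).card : ℝ) ^ 4 ≤ (2 * K) ^ 4 :=
    pow_le_pow_left₀ (Nat.cast_nonneg _) h4 4
  have h6 : ((bar V A).card : ℝ) ^ 4 < Q := by
    calc _ ≤ _ := h5
      _ = 16 * K ^ 4 := by ring
      _ < _ := hQ
  exact_mod_cast h6

end Pool.Agent.TH414.Dil
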